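import Pool.Agent.Helper78.DT.Goals2

/-!
# Project DT, packet PA2: a binomial coefficient estimate
-/

set_option autoImplicit false

namespace Pool.Agent.Helper16.DT

open Pool.Agent.Helper78.DT
open scoped Nat

theorem choose_two_pow_le (W m : ℕ) (hm : 0 < m) :
    ((W.choose m : ℕ) : ℝ) * 2 ^ m ≤ (6 * (W : ℝ) / m) ^ m := by
  have hm' : (0 : ℝ) < m := Nat.cast_pos.mpr hm
  have h1 : ((W.choose m : ℕ) : ℝ) ≤ (W : ℝ) ^ m / (m ! : ℝ) := Nat.choose_le_pow_div m W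
  have h2 : (m : ℝ) ^ m / (m ! : ℝ) ≤ Real.exp m := Real.pow_div_factorial_le_exp (m : ℝ) hm'.le m
  have h3 : Real.exp (m : ℝ) ≤ 3 ^ m := by
    have h4 : Real.exp (m : ℝ) = Real.exp 1 ^ m := by
      rw [← Real.exp_nat_mul, mul_one]
    rw [h4]
    exact pow_le_pow_left₀ (Real.exp_pos 1).le (by linarith [Real.exp_one_lt_d9]) m
  have hf : (0 : ℝ) < (m ! : ℝ) := Nat.cast_pos.mpr (Nat.factorial_pos m)
  have h5 : 1 / (m ! : ℝ) ≤ 3 ^ m / (m : ℝ) ^ m := by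
    rw [div_le_div_iff₀ hf (pow_pos hm' m), one_mul]
    have h6 := h2.trans h3
    rwa [div_le_iff₀ hf] at h6
  calc ((W.choose m : ℕ) : ℝ) * 2 ^ m ≤ (W : ℝ) ^ m / (m ! : ℝ) * 2 ^ m := by gcongr
    _ = (W : ℝ) ^ m * 2 ^ m * (1 / (m ! : ℝ)) := by ring
    _ ≤ (W : ℝ) ^ m * 2 ^ m * (3 ^ m / (m : ℝ) ^ m) := by gcongr
    _ = (6 * (W : ℝ) / m) ^ m := by
      rw [div_pow, mul_pow, show (6 : ℝ) = 2 * 3 by norm_num, mul_pow]
      ring

/-- packet PA2 -/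
theorem pa2 (hTll : TllStmt) : Pa2Stmt := by
  intro c a β hβ
  obtain ⟨hT1, hT2⟩ := hTll a
  obtain ⟨L0, hL0⟩ := hT2 (384 * (c + 9))
  refine ⟨L0 + 1, fun L hL => ?_⟩
  have hL1 : 1 ≤ L := by omega
  have ht := hL0 L (by omega)
  set t := tt a L with htd
  have hlt := (hT1 L hL1).2
  have htp : 1 ≤ t := by omega
  set W := WW c L with hW
  have hWpos : 0 < W := by
    rw [hW, WW]
    positivity
  have hm : (0 : ℝ) < ((t + 1 : ℕ) : ℝ) := by positivity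
  set x : ℝ := 6 * (W : ℝ) / ((t + 1 : ℕ) : ℝ) with hx
  have hWr : (0 : ℝ) < W := Nat.cast_pos.mpr hWpos
  have hxpos : 0 < x := by positivity
  have h1 := choose_two_pow_le W (t + 1) (Nat.succ_pos t)
  rw [← hx] at h1
  have h2 : 2 ^ β * x ≤ (KK c a β L : ℝ) := by
    rw [KK, ← htd, ← hW, Nat.cast_mul, Nat.cast_pow, Nat.cast_ofNat]
    refine mul_le_mul_of_nonneg_left ?_ (by positivity)
    rw [hx, div_le_iff₀ hm]
    have h3 := Nat.lt_mul_div_succ (6 * W) (Nat.succ_pos t)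
    have h4 : ((6 * W : ℕ) : ℝ) < (((t + 1) * (6 * W / (t + 1) + 1) : ℕ) : ℝ) := Nat.cast_lt.mpr h3
    rw [Nat.cast_mul, Nat.cast_mul, Nat.cast_ofNat] at h4
    linarith
  have h2pos : 0 < 2 ^ β * x := by positivity
  have h3 : (2 ^ β * x) ^ t ≤ (KK c a β L : ℝ) ^ t := pow_le_pow_left₀ h2pos.le h2 t
  have h4 : ((W.choose (t + 1) : ℕ) : ℝ) * 2 ^ (t + 1) / (KK c a β L : ℝ) ^ t ≤ x / 2 ^ (β * t) := by
    calc ((W.choose (t + 1) : ℕ) : ℝ) * 2 ^ (t + 1) / (KK c a β L : ℝ) ^ t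
        ≤ x ^ (t + 1) / (2 ^ β * x) ^ t :=
          div_le_div₀ (by positivity) h1 (pow_pos h2pos t) h3
      _ = x / 2 ^ (β * t) := by
          rw [mul_pow, pow_succ, ← pow_mul]
          field_simp
  refine h4.trans ?_
  have h5 : x ≤ 6 * W := by
    rw [hx]
    apply div_le_self (by positivity)
    have : (1 : ℕ) ≤ t + 1 := by omega
    exact_mod_cast this
  have hkey : 6 * W * (64 * L ^ c) ≤ 2 ^ (β * t) := by
    have e1 : 6 * W * (64 * L ^ c) = 384 * (c + 9) * L ^ (c + 1) := by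
      rw [hW, WW]
      ring
    have e2 : 384 * (c + 9) ≤ 2 ^ t := ht.trans Nat.lt_two_pow_self.le
    have e3 : L ^ (c + 1) ≤ 2 ^ ((2 * a + 9) * (t + 1) * (c + 1)) := by
      rw [pow_mul]
      exact Nat.pow_le_pow_left hlt.le _
    rw [e1]
    refine (Nat.mul_le_mul e2 e3).trans ?_
    rw [← pow_add]
    refine Nat.pow_le_pow_right (by norm_num) ?_
    rw [hβ]
    have e4 : (2 * a + 9) * (t + 1) * (c + 1) ≤ (2 * a + 9) * (2 * t) * (c + 1) := by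
      gcongr
      omega
    calc t + (2 * a + 9) * (t + 1) * (c + 1) ≤ t + (2 * a + 9) * (2 * t) * (c + 1) := by omega
      _ = (2 * (2 * a + 9) * (c + 1) + 1) * t := by ring
  have hkey' : 6 * (W : ℝ) * (64 * (L : ℝ) ^ c) ≤ 2 ^ (β * t) := by exact_mod_cast hkey
  have hLr : (0 : ℝ) < L := by exact_mod_cast hL1
  rw [div_le_div_iff₀ (by positivity) (by positivity)]
  calc x * (64 * (L : ℝ) ^ c) ≤ 6 * W * (64 * (L : ℝ) ^ c) := by gcongr
    _ ≤ 2 ^ (β * t) := hkey'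
    _ = 1 * 2 ^ (β * t) := (one_mul _).symm

end Pool.Agent.Helper16.DT
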