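import Pool.Agent.Helper78.DT.Goals3
import Pool.Agent.Helper78.LM.As1

/-!
# Project DT, packet PTD: the algorithm runs in polynomial time
-/

set_option autoImplicit false

namespace Pool.Agent.Helper16.DT

open Pool.Agent.Helper78.DT Pool.Agent.Helper81.CC

theorem lg_two (N : ℕ) : 2 ≤ lg N := by
  unfold lg
  omega

theorem div_cpw (hCpw : CpwStmt) (i b n : ℕ) (hb : 1 ≤ b) : i / b ^ n = i / cpw (i + 1) b n := by
  rw [hCpw (i + 1) b n (by omega) hb]
  rcases le_total (b ^ n) (i + 1) with h | h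
  · rw [min_eq_right h]
  · rw [min_eq_left h, Nat.div_eq_of_lt (Nat.lt_succ_self i)]
    rcases Nat.eq_or_lt_of_le h with h' | h'
    · rw [← h', Nat.div_eq_of_lt (Nat.lt_succ_self i)]
    · exact Nat.div_eq_of_lt (by omega)

section
variable {γ : Type} [ToData γ] {L : γ → ℕ}

theorem ptt (hPtl : PtlStmt) (a : ℕ) (hL : PolyTime L) : PolyTime fun g => tt a (L g) := by
  have h := (hPtl γ L L L hL hL hL).2.1
  unfold tt
  exact PolyTime.div h (PolyTime.const _)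

theorem pWW (c : ℕ) (hL : PolyTime L) : PolyTime fun g => WW c (L g) := by
  unfold WW
  exact PolyTime.mul (PolyTime.const _) hL

theorem pKK (hPtl : PtlStmt) (c a β : ℕ) (hL : PolyTime L) : PolyTime fun g => KK c a β (L g) := by
  have h1 := ptt hPtl a hL
  have h2 := pWW c hL
  unfold KK
  exact PolyTime.mul (PolyTime.const _) (PolyTime.succ (PolyTime.div
    (PolyTime.mul (PolyTime.const _) h2) (PolyTime.succ h1)))

theorem pqn (c : ℕ) (hL : PolyTime L) : PolyTime fun g => qn c (L g) := by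
  unfold qn
  exact PolyTime.mul (PolyTime.const _) (PolyTime.pow hL _)

theorem pPP (hPtl : PtlStmt) (c : ℕ) (hL : PolyTime L) : PolyTime fun g => PP c (L g) := by
  have h := hPtl γ (fun g => L g ^ (c + 6)) L L (PolyTime.pow hL _) hL hL
  exact h.2.2.1

theorem pRR (hPtl : PtlStmt) (c : ℕ) (hL : PolyTime L) : PolyTime fun g => RR c (L g) := by
  have h := hPtl γ (fun g => qn c (L g) * PP c (L g)) L L (PolyTime.mul (pqn c hL) (pPP hPtl c hL)) hL hL
  exact h.2.2.1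

theorem pdd (hPtl : PtlStmt) (a : ℕ) (hL : PolyTime L) (hL2 : ∀ g, 2 ≤ L g) :
    PolyTime fun g => dd a (L g) := by
  have h := hPtl γ L (fun g => tt a (L g) * (2 * a + 8)) L hL
    (PolyTime.mul (ptt hPtl a hL) (PolyTime.const _)) hL
  refine h.2.2.2.2 fun g => ?_
  have h1 : tt a (L g) * (2 * a + 8) ≤ Nat.log 2 (L g) := by
    unfold tt
    calc Nat.log 2 (L g) / (2 * a + 9) * (2 * a + 8) ≤ Nat.log 2 (L g) / (2 * a + 9) * (2 * a + 9) :=
          Nat.mul_le_mul_left _ (by omega)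
      _ ≤ Nat.log 2 (L g) := Nat.div_mul_le_self _ _
  refine (Nat.pow_le_pow_right (by norm_num) h1).trans (Nat.pow_log_le_self 2 ?_)
  have := hL2 g
  omega

theorem PP_pos (hNpr : NprStmt) (c : ℕ) {l : ℕ} (hl : 2 ≤ l) : 0 < PP c l :=
  (hNpr (l ^ (c + 6)) (Nat.pow_pos (by omega))).1.pos

theorem qn_pos (c : ℕ) {l : ℕ} (hl : 2 ≤ l) : 0 < qn c l := by
  unfold qn
  exact Nat.mul_pos (by norm_num) (Nat.pow_pos (by omega))

theorem RR_pos (hNpr : NprStmt) (c : ℕ) {l : ℕ} (hl : 2 ≤ l) : 0 < RR c l :=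
  (hNpr (qn c l * PP c l) (Nat.mul_pos (qn_pos c hl) (PP_pos hNpr c hl))).1.pos

theorem pdivpow (hPtl : PtlStmt) (hCpw : CpwStmt) {i b n : γ → ℕ} (hi : PolyTime i) (hb : PolyTime b)
    (hn : PolyTime n) (hb1 : ∀ g, 1 ≤ b g) : PolyTime fun g => i g / b g ^ n g := by
  have h := (hPtl γ (fun g => i g + 1) n b (PolyTime.succ hi) hn hb).2.2.2.1
  exact PolyTime.congr (PolyTime.div hi h) fun g => (div_cpw hCpw (i g) (b g) (n g) (hb1 g)).symm

/-- the hash function -/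
theorem phs (hPtn : PtnStmt) {P e z v : γ → ℕ} (hP : PolyTime P) (he : PolyTime e) (hz : PolyTime z)
    (hv : PolyTime v) (hP0 : ∀ g, 0 < P g) : PolyTime fun g => hs (P g) (e g) (z g) (v g) := by
  unfold hs
  refine (hPtn γ).1 P e z (fun g i => v g / 2 ^ i % 2) hP0 hP he hz ?_
  exact (hPtn (γ × ℕ)).2 (fun _ => 2) (fun z => v z.1) (fun z => z.2) (PolyTime.const 2)
    (PolyTime.comp hv (PolyTime.fst PolyTime.id')) (PolyTime.snd PolyTime.id')

/-- the partition -/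
theorem ppt (hPtn : PtnStmt) {P K t e v : γ → ℕ} {A : γ → ℕ → ℕ} (hP : PolyTime P) (hK : PolyTime K)
    (ht : PolyTime t) (he : PolyTime e) (hv : PolyTime v)
    (hA : PolyTime fun z : γ × ℕ => A z.1 z.2) (hP0 : ∀ g, 0 < P g) :
    PolyTime fun g => pt (P g) (K g) (t g) (e g) (A g) (v g) := by
  unfold pt
  refine PolyTime.mod ?_ hK
  refine (hPtn γ).1 P (fun g => t g + 1) (fun g => hs (P g) (e g) (A g 0) (v g)) (fun g i => A g (i + 1))
    hP0 hP (PolyTime.succ ht) ?_ ?_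
  · exact phs hPtn hP he (PolyTime.comp (g := fun z : γ × ℕ => A z.1 z.2) (f := fun g => (g, 0)) hA
      (PolyTime.pair PolyTime.id' (PolyTime.const 0))) hv hP0
  · exact PolyTime.comp (g := fun z : γ × ℕ => A z.1 z.2) (f := fun z : γ × ℕ => (z.1, z.2 + 1)) hA
      (PolyTime.pair (PolyTime.fst PolyTime.id') (PolyTime.succ (PolyTime.snd PolyTime.id')))

/-- the coins -/
theorem pcn (hPtn : PtnStmt) {R P K t e d v : γ → ℕ} {A θ s : γ → ℕ → ℕ} (hR : PolyTime R)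
    (hP : PolyTime P) (hK : PolyTime K) (ht : PolyTime t) (he : PolyTime e) (hd : PolyTime d)
    (hv : PolyTime v) (hA : PolyTime fun z : γ × ℕ => A z.1 z.2)
    (hθ : PolyTime fun z : γ × ℕ => θ z.1 z.2) (hs' : PolyTime fun z : γ × ℕ => s z.1 z.2)
    (hP0 : ∀ g, 0 < P g) (hR0 : ∀ g, 0 < R g) :
    PolyTime fun g => cn (R g) (P g) (K g) (t g) (e g) (d g) (A g) (θ g) (s g) (v g) := by
  have h1 := ppt hPtn hP hK ht he hv hA hP0
  have h2 : PolyTime fun g => s g (pt (P g) (K g) (t g) (e g) (A g) (v g)) :=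
    PolyTime.comp (g := fun z : γ × ℕ => s z.1 z.2)
      (f := fun g => (g, pt (P g) (K g) (t g) (e g) (A g) (v g))) hs' (PolyTime.pair PolyTime.id' h1)
  have h3 : PolyTime fun g => hs (P g) (e g) (s g (pt (P g) (K g) (t g) (e g) (A g) (v g)) % P g) (v g) :=
    phs hPtn hP he (PolyTime.mod h2 hP) hv hP0
  unfold cn hb
  refine PolyTime.decide_lt (PolyTime.mul (PolyTime.const 2) ?_) hR
  exact (hPtn γ).1 R d _ θ hR0 hR hd
    (PolyTime.add (PolyTime.mul (PolyTime.div h2 hP) hP) h3) hθ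

end

section
variable {α : Type} [ToData α]

theorem psd (hPtn : PtnStmt) (hPtl : PtlStmt) (hPtr : PtrStmt) (hNpr : NprStmt) (hCpw : CpwStmt)
    (A : Machine α) (c a β : ℕ) {L : α → ℕ} (hL : PolyTime L) (hL2 : ∀ x, 2 ≤ L x) :
    PolyTime fun z : α × ℕ => sd A z.1 c a β (L z.1) z.2 := by
  have hm : PolyTime A.m := Pool.Agent.Helper78.LM.PT_of_comp A.m_poly
  have hx : PolyTime fun z : α × ℕ => z.1 := PolyTime.fst PolyTime.id'
  have hi : PolyTime fun z : α × ℕ => z.2 := PolyTime.snd PolyTime.id'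
  have hLz : PolyTime fun z : α × ℕ => L z.1 := PolyTime.comp hL hx
  -- on triples
  have hzz : PolyTime fun w : (α × ℕ) × ℕ => w.1 := PolyTime.fst PolyTime.id'
  have hLw : PolyTime fun w : (α × ℕ) × ℕ => L w.1.1 :=
    PolyTime.comp (g := fun z : α × ℕ => L z.1) hLz hzz
  have hiw : PolyTime fun w : (α × ℕ) × ℕ => w.1.2 :=
    PolyTime.comp (g := fun z : α × ℕ => z.2) hi hzz
  have hvw : PolyTime fun w : (α × ℕ) × ℕ => w.2 := PolyTime.snd PolyTime.id'
  -- on quadruples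
  have hww : PolyTime fun y : ((α × ℕ) × ℕ) × ℕ => y.1 := PolyTime.fst PolyTime.id'
  have hLy : PolyTime fun y : ((α × ℕ) × ℕ) × ℕ => L y.1.1.1 :=
    PolyTime.comp (g := fun w : (α × ℕ) × ℕ => L w.1.1) hLw hww
  have hiy : PolyTime fun y : ((α × ℕ) × ℕ) × ℕ => y.1.1.2 :=
    PolyTime.comp (g := fun w : (α × ℕ) × ℕ => w.1.2) hiw hww
  have hjy : PolyTime fun y : ((α × ℕ) × ℕ) × ℕ => y.2 := PolyTime.snd PolyTime.id'
  have hAw : PolyTime fun y : ((α × ℕ) × ℕ) × ℕ => dg (PP c (L y.1.1.1)) y.1.1.2 y.2 :=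
    (hPtn _).2 _ _ _ (pPP hPtl c hLy) hiy hjy
  have hdiv : PolyTime fun y : ((α × ℕ) × ℕ) × ℕ =>
      y.1.1.2 / PP c (L y.1.1.1) ^ (tt a (L y.1.1.1) + 2) :=
    pdivpow hPtl hCpw hiy (pPP hPtl c hLy) (PolyTime.add (ptt hPtl a hLy) (PolyTime.const 2))
      fun y => PP_pos hNpr c (hL2 _)
  have hdiv2 : PolyTime fun y : ((α × ℕ) × ℕ) × ℕ =>
      y.1.1.2 / PP c (L y.1.1.1) ^ (tt a (L y.1.1.1) + 2) / RR c (L y.1.1.1) ^ dd a (L y.1.1.1) :=
    pdivpow hPtl hCpw hdiv (pRR hPtl c hLy) (pdd hPtl a hLy fun y => hL2 _) fun y => RR_pos hNpr c (hL2 _)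
  unfold sd
  refine hPtr α A (α × ℕ) (fun z => z.1) (fun z => WW c (L z.1)) (fun z => KK c a β (L z.1))
    (fun z => tt a (L z.1)) _ _ hx (pWW c hLz) (pKK hPtl c a β hLz) (ptt hPtl a hLz) ?_ ?_
  · exact ppt hPtn (pPP hPtl c hLw) (pKK hPtl c a β hLw) (ptt hPtl a hLw) hLw hvw hAw
      fun w => PP_pos hNpr c (hL2 _)
  · unfold cut
    refine PolyTime.and (PolyTime.decide_lt hvw (PolyTime.comp hm (PolyTime.comp hx hzz))) ?_
    refine pcn hPtn (pRR hPtl c hLw) (pPP hPtl c hLw) (pKK hPtl c a β hLw) (ptt hPtl a hLw) hLw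
      (pdd hPtl a hLw fun w => hL2 _) hvw hAw ?_ ?_ (fun w => PP_pos hNpr c (hL2 _))
      fun w => RR_pos hNpr c (hL2 _)
    · exact (hPtn _).2 _ _ _ (pRR hPtl c hLy) hdiv hjy
    · exact (hPtn _).2 _ _ _ (PolyTime.mul (pqn c hLy) (pPP hPtl c hLy)) hdiv2 hjy

theorem ptd0 (hPtn : PtnStmt) (hPtl : PtlStmt) (hPtr : PtrStmt) (hNpr : NprStmt) (hCpw : CpwStmt) :
    PtdStmt := by
  intro α _ A s c a β C hs
  have hm : PolyTime A.m := Pool.Agent.Helper78.LM.PT_of_comp A.m_poly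
  have hT : PolyTime A.T := Pool.Agent.Helper78.LM.PT_of_comp A.T_poly
  have hw : PolyTime A.w := Pool.Agent.Helper78.LM.PT_of_comp A.w_poly
  have hsz : PolyTime fun x => Pool.Agent.Helper78.DT.sz A x s := by
    unfold Pool.Agent.Helper78.DT.sz
    exact PolyTime.add (PolyTime.add (PolyTime.add hs hm) hT) hw
  have hL : PolyTime fun x => lg (Pool.Agent.Helper78.DT.sz A x s) := (hPtl α _ _ _ hsz hsz hsz).1
  have hL2 : ∀ x, 2 ≤ lg (Pool.Agent.Helper78.DT.sz A x s) := fun x => lg_two _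
  have hls : PolyTime fun x => lg (s x) := (hPtl α _ _ _ hs hs hs).1
  have hcap : PolyTime fun x => (4 * Pool.Agent.Helper78.DT.sz A x s + 4) ^ C :=
    PolyTime.pow (PolyTime.add (PolyTime.mul (PolyTime.const 4) hsz) (PolyTime.const 4)) C
  have hzn : PolyTime fun x => zn A x s c a β C := by
    unfold zn Zc
    refine PolyTime.mul (PolyTime.mul ?_ ?_) ?_
    · exact (hPtl α _ _ _ hcap (PolyTime.add (ptt hPtl a hL) (PolyTime.const 2)) (pPP hPtl c hL)).2.2.2.1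
    · exact (hPtl α _ _ _ hcap (pdd hPtl a hL hL2) (pRR hPtl c hL)).2.2.2.1
    · exact (hPtl α _ _ _ hcap (pKK hPtl c a β hL) (PolyTime.mul (pqn c hL) (pPP hPtl c hL))).2.2.2.1
  have hsd := psd hPtn hPtl hPtr hNpr hCpw A c a β hL hL2
  have han : PolyTime fun x => an A x s c a β C := by
    unfold an
    exact PolyTime.length (PolyTime.filter (PolyTime.range hzn) hsd)
  unfold apx
  exact PolyTime.div (PolyTime.add (PolyTime.mul (PolyTime.mul (PolyTime.const 2)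
    (PolyTime.pow hls c)) han) hzn) (PolyTime.mul (PolyTime.const 2) hzn)

end

/-- packet PTD -/
theorem ptd (hPtn : PtnStmt) (hPtl : PtlStmt) (hPtr : PtrStmt) (hNpr : NprStmt) (hCpw : CpwStmt) :
    PtdStmt := ptd0 hPtn hPtl hPtr hNpr hCpw

end Pool.Agent.Helper16.DT
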